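import Mathlib

/-!
# Rooted binary trees, induced subtrees and densities
-/

namespace Pool.Agent.Helper1.IT

/-- Rooted binary trees: a single leaf, or a root with two branches. -/
inductive BinTree : Type
  | leaf : BinTree
  | node : BinTree → BinTree → BinTree

/-- The number of leaves. -/
def BinTree.size : BinTree → ℕ
  | .leaf => 1
  | .node l r => l.size + r.size

/-- The leaves of a tree: a leaf of `node l r` is a leaf of `l` or a leaf of `r`. -/
inductive Leaf : BinTree → Type
  | here : Leaf .leaf
  | left {l r : BinTree} : Leaf l → Leaf (.node l r)
  | right {l r : BinTree} : Leaf r → Leaf (.node l r)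

/-- Isomorphism of rooted binary trees, the two branches of a vertex being unordered. -/
inductive Iso : BinTree → BinTree → Prop
  | leaf : Iso .leaf .leaf
  | node {a b c d : BinTree} : Iso a c → Iso b d → Iso (.node a b) (.node c d)
  | swap {a b c d : BinTree} : Iso a d → Iso b c → Iso (.node a b) (.node c d)

/-- The tree with the two given branches; an empty branch is suppressed. -/
def join : Option BinTree → Option BinTree → Option BinTree
  | some s, some t => some (.node s t)
  | some s, none => some s
  | none, t => t

open Classical in
/-- The subtree of `T` induced by a set of leaves (`none` for the empty set). -/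
noncomputable def induced : (T : BinTree) → Set (Leaf T) → Option BinTree
  | .leaf, S => if S.Nonempty then some .leaf else none
  | .node l r, S => join (induced l (Leaf.left ⁻¹' S)) (induced r (Leaf.right ⁻¹' S))

/-- The proportion of the sets of `D.size` leaves of `T` that induce a copy of `D`. -/
noncomputable def density (D T : BinTree) : ℝ :=
  ({S : Set (Leaf T) | ∃ t, induced T S = some t ∧ Iso t D}.ncard : ℝ) / (T.size.choose D.size : ℝ)

/-- The caterpillar with `k + 1` leaves. -/
def caterpillar : ℕ → BinTree
  | 0 => .leaf
  | k + 1 => .node (caterpillar k) .leaf

end Pool.Agent.Helper1.IT
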