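import Pool.Agent.Helper1.IT.Defs

/-!
# The inducibility of an 8-leaf tree
-/

namespace Pool.Agent.Helper1.IT

open Filter Topology

/-- the tree with the branches caterpillar (6 leaves) and cherry -/
def D8 : BinTree := .node (caterpillar 5) (caterpillar 1)

/-! ### sizes -/

lemma size_pos (T : BinTree) : 0 < T.size := by
  induction T with
  | leaf => simp [BinTree.size]
  | node l r h1 h2 => simp only [BinTree.size]; omega

lemma Iso.size_eq {s t : BinTree} (h : Iso s t) : s.size = t.size := by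
  induction h with
  | leaf => rfl
  | node _ _ h1 h2 => simp only [BinTree.size]; omega
  | swap _ _ h1 h2 => simp only [BinTree.size]; omega

lemma size_caterpillar (k : ℕ) : (caterpillar k).size = k + 1 := by
  induction k with
  | zero => rfl
  | succ k ih => simp only [caterpillar, BinTree.size, ih]

lemma Iso.refl (t : BinTree) : Iso t t := by
  induction t with
  | leaf => exact Iso.leaf
  | node l r h1 h2 => exact Iso.node h1 h2

section leaves

open Classical

/-- leaves of a node -/
def leafEquiv (l r : BinTree) : Leaf (.node l r) ≃ Leaf l ⊕ Leaf r where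
  toFun x := match x with
    | .left a => Sum.inl a
    | .right b => Sum.inr b
  invFun x := match x with
    | Sum.inl a => Leaf.left a
    | Sum.inr b => Leaf.right b
  left_inv x := by cases x <;> rfl
  right_inv x := by rcases x with a | b <;> rfl

noncomputable instance instF : (T : BinTree) → Fintype (Leaf T)
  | .leaf => ⟨{Leaf.here}, fun x => by cases x; simp⟩
  | .node l r => by
      have := instF l
      have := instF r
      exact Fintype.ofEquiv _ (leafEquiv l r).symm

lemma card_leaf (T : BinTree) : Fintype.card (Leaf T) = T.size := by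
  induction T with
  | leaf =>
    exact Fintype.card_eq_one_iff.2 ⟨Leaf.here, fun y => by cases y; rfl⟩
  | node l r h1 h2 =>
    rw [Fintype.card_congr (leafEquiv l r), Fintype.card_sum, h1, h2]
    rfl

variable {l r : BinTree}

/-- left part -/
noncomputable def lp (S : Finset (Leaf (.node l r))) : Finset (Leaf l) :=
  Finset.univ.filter (fun x => Leaf.left x ∈ S)

/-- right part -/
noncomputable def rp (S : Finset (Leaf (.node l r))) : Finset (Leaf r) :=
  Finset.univ.filter (fun x => Leaf.right x ∈ S)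

/-- union of two parts -/
noncomputable def un (A : Finset (Leaf l)) (B : Finset (Leaf r)) : Finset (Leaf (.node l r)) :=
  A.image Leaf.left ∪ B.image Leaf.right

lemma left_inj : Function.Injective (Leaf.left : Leaf l → Leaf (.node l r)) := by
  intro a b h; injection h

lemma right_inj : Function.Injective (Leaf.right : Leaf r → Leaf (.node l r)) := by
  intro a b h; injection h

lemma left_mem_un (A : Finset (Leaf l)) (B : Finset (Leaf r)) (x : Leaf l) :
    (Leaf.left x : Leaf (.node l r)) ∈ un A B ↔ x ∈ A := by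
  unfold un
  simp only [Finset.mem_union, Finset.mem_image]
  constructor
  · rintro (⟨a, ha, h⟩ | ⟨b, _, h⟩)
    · rwa [← left_inj h]
    · cases h
  · exact fun h => Or.inl ⟨x, h, rfl⟩

lemma right_mem_un (A : Finset (Leaf l)) (B : Finset (Leaf r)) (x : Leaf r) :
    (Leaf.right x : Leaf (.node l r)) ∈ un A B ↔ x ∈ B := by
  unfold un
  simp only [Finset.mem_union, Finset.mem_image]
  constructor
  · rintro (⟨a, _, h⟩ | ⟨b, hb, h⟩)
    · cases h
    · rwa [← right_inj h]
  · exact fun h => Or.inr ⟨x, h, rfl⟩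

lemma lp_un (A : Finset (Leaf l)) (B : Finset (Leaf r)) : lp (un A B) = A := by
  ext x; simp [lp, left_mem_un]

lemma rp_un (A : Finset (Leaf l)) (B : Finset (Leaf r)) : rp (un A B) = B := by
  ext x; simp [rp, right_mem_un]

lemma un_lp_rp (S : Finset (Leaf (.node l r))) : un (lp S) (rp S) = S := by
  ext x
  cases x with
  | left a => rw [left_mem_un]; simp [lp]
  | right b => rw [right_mem_un]; simp [rp]

lemma card_un (A : Finset (Leaf l)) (B : Finset (Leaf r)) : (un A B).card = A.card + B.card := by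
  unfold un
  rw [Finset.card_union_of_disjoint, Finset.card_image_of_injective _ left_inj,
    Finset.card_image_of_injective _ right_inj]
  rw [Finset.disjoint_left]
  intro x hx hx'
  rw [Finset.mem_image] at hx hx'
  obtain ⟨a, _, rfl⟩ := hx
  obtain ⟨b, _, h⟩ := hx'
  cases h

lemma card_split (S : Finset (Leaf (.node l r))) : S.card = (lp S).card + (rp S).card := by
  rw [← card_un, un_lp_rp]

lemma coe_lp (S : Finset (Leaf (.node l r))) :
    (Leaf.left ⁻¹' (S : Set (Leaf (.node l r))) : Set (Leaf l)) = (lp S : Set (Leaf l)) := by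
  ext x; simp [lp]

lemma coe_rp (S : Finset (Leaf (.node l r))) :
    (Leaf.right ⁻¹' (S : Set (Leaf (.node l r))) : Set (Leaf r)) = (rp S : Set (Leaf r)) := by
  ext x; simp [rp]

/-- induced subtree for finsets -/
noncomputable def ind (T : BinTree) (S : Finset (Leaf T)) : Option BinTree := induced T (S : Set _)

lemma ind_node (S : Finset (Leaf (.node l r))) :
    ind (.node l r) S = join (ind l (lp S)) (ind r (rp S)) := by
  unfold ind
  rw [← coe_lp, ← coe_rp]
  rfl

lemma ind_empty (T : BinTree) : ind T ∅ = none := by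
  induction T with
  | leaf => simp [ind, induced]
  | node l r h1 h2 =>
    rw [ind_node]
    have e1 : lp (∅ : Finset (Leaf (.node l r))) = ∅ := by ext x; simp [lp]
    have e2 : rp (∅ : Finset (Leaf (.node l r))) = ∅ := by ext x; simp [rp]
    rw [e1, e2, h1, h2]
    rfl

lemma ind_size (T : BinTree) (S : Finset (Leaf T)) (hS : S.Nonempty) :
    ∃ t, ind T S = some t ∧ t.size = S.card := by
  induction T with
  | leaf =>
    have hS' : S = {Leaf.here} := by
      ext x; cases x
      obtain ⟨y, hy⟩ := hS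
      cases y
      simpa using hy
    refine ⟨.leaf, ?_, ?_⟩
    · simp [ind, induced, hS']
    · simp [hS', BinTree.size]
  | node l r h1 h2 =>
    rw [ind_node]
    by_cases e1 : (lp S).Nonempty
    · obtain ⟨s, hs, hs'⟩ := h1 _ e1
      by_cases e2 : (rp S).Nonempty
      · obtain ⟨t, ht, ht'⟩ := h2 _ e2
        refine ⟨.node s t, by rw [hs, ht]; rfl, ?_⟩
        rw [card_split, ← hs', ← ht']; rfl
      · rw [Finset.not_nonempty_iff_eq_empty] at e2
        refine ⟨s, by rw [hs, e2, ind_empty]; rfl, ?_⟩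
        rw [card_split, e2, hs']; simp
    · rw [Finset.not_nonempty_iff_eq_empty] at e1
      by_cases e2 : (rp S).Nonempty
      · obtain ⟨t, ht, ht'⟩ := h2 _ e2
        refine ⟨t, by rw [ht, e1, ind_empty]; rfl, ?_⟩
        rw [card_split, e1, ht']; simp
      · rw [Finset.not_nonempty_iff_eq_empty] at e2
        rw [Finset.nonempty_iff_ne_empty] at hS
        exact absurd (by rw [← un_lp_rp S, e1, e2]; simp [un]) hS

lemma size_of_ind {T : BinTree} {S : Finset (Leaf T)} {t : BinTree} (h : ind T S = some t) :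
    t.size = S.card := by
  rcases S.eq_empty_or_nonempty with rfl | hS
  · rw [ind_empty] at h; cases h
  · obtain ⟨s, hs, hs'⟩ := ind_size T S hS
    rw [hs] at h
    injection h with h
    rw [← h, hs']

/-- copies of a tree -/
def Cp (D T : BinTree) (S : Finset (Leaf T)) : Prop := ∃ t, ind T S = some t ∧ Iso t D

lemma Cp.card {D T : BinTree} {S : Finset (Leaf T)} (h : Cp D T S) : S.card = D.size := by
  obtain ⟨t, ht, hi⟩ := h
  rw [← size_of_ind ht, hi.size_eq]

/-- the number of copies -/
noncomputable def X (D T : BinTree) : ℕ := ((Finset.univ : Finset (Finset (Leaf T))).filter (Cp D T)).card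

lemma ncard_eq (D T : BinTree) :
    {S : Set (Leaf T) | ∃ t, induced T S = some t ∧ Iso t D}.ncard = X D T := by
  unfold X
  rw [← Set.ncard_coe_finset]
  have : {S : Set (Leaf T) | ∃ t, induced T S = some t ∧ Iso t D} =
      (fun S : Finset (Leaf T) => (S : Set (Leaf T))) ''
        ((Finset.univ : Finset (Finset (Leaf T))).filter (Cp D T) : Set (Finset (Leaf T))) := by
    ext S
    simp only [Set.mem_ofPred_eq, Finset.coe_filter, Finset.mem_univ, true_and, Set.mem_image]
    constructor
    · rintro ⟨t, ht, hi⟩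
      exact ⟨S.toFinset, ⟨t, by unfold ind; rw [Set.coe_toFinset]; exact ht, hi⟩, by simp⟩
    · rintro ⟨S', ⟨t, ht, hi⟩, rfl⟩
      exact ⟨t, ht, hi⟩
  rw [this, Set.ncard_image_of_injective _ Finset.coe_injective]

/-! ### caterpillars -/

/-- caterpillar sets with six leaves -/
lemma Cp_le (D T : BinTree) : X D T ≤ T.size.choose D.size := by
  unfold X
  rw [← card_leaf T, ← Finset.card_univ, ← Finset.card_powersetCard]
  apply Finset.card_le_card
  intro S hS
  rw [Finset.mem_filter] at hS
  rw [Finset.mem_powersetCard]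
  exact ⟨Finset.subset_univ _, hS.2.card⟩

/-- a copy of `D8` inside a node -/
lemma copy_node {S : Finset (Leaf (.node l r))} (h : Cp D8 (.node l r) S) :
    (rp S = ∅ ∧ Cp D8 l (lp S)) ∨ (lp S = ∅ ∧ Cp D8 r (rp S)) ∨
    (Cp (caterpillar 5) l (lp S) ∧ (rp S).card = 2) ∨
    (Cp (caterpillar 5) r (rp S) ∧ (lp S).card = 2) := by
  obtain ⟨t, ht, hi⟩ := h
  rw [ind_node] at ht
  rcases (lp S).eq_empty_or_nonempty with e1 | e1
  · right; left
    refine ⟨e1, t, ?_, hi⟩
    rw [e1, ind_empty] at ht
    exact ht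
  · obtain ⟨s1, hs1, hc1⟩ := ind_size l _ e1
    rcases (rp S).eq_empty_or_nonempty with e2 | e2
    · left
      refine ⟨e2, t, ?_, hi⟩
      rw [e2, ind_empty, hs1] at ht
      rw [hs1]; exact ht
    · obtain ⟨s2, hs2, hc2⟩ := ind_size r _ e2
      rw [hs1, hs2] at ht
      simp only [join, Option.some.injEq] at ht
      subst ht
      right; right
      unfold D8 at hi
      cases hi with
      | node h1 h2 =>
        left
        refine ⟨⟨s1, hs1, h1⟩, ?_⟩
        rw [← hc2, h2.size_eq, size_caterpillar]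
      | swap h1 h2 =>
        right
        refine ⟨⟨s2, hs2, h2⟩, ?_⟩
        rw [← hc1, h1.size_eq, size_caterpillar]

/-- a tree with two branches that are not leaves is no caterpillar -/
lemma not_cat {s t : BinTree} (hs : 2 ≤ s.size) (ht : 2 ≤ t.size) (k : ℕ) :
    ¬ Iso (.node s t) (caterpillar k) := by
  cases k with
  | zero => intro h; cases h
  | succ k =>
    intro h
    cases h with
    | node h1 h2 => have := h2.size_eq; simp only [BinTree.size] at this; omega
    | swap h1 h2 => have := h1.size_eq; simp only [BinTree.size] at this; omega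

/-- every copy of `D8` contains 15 six-sets that are no caterpillars -/
lemma copy_noncat (T : BinTree) (S : Finset (Leaf T)) (h : Cp D8 T S) :
    ∃ R : Finset (Leaf T), R ⊆ S ∧ R.card = 6 ∧ ∀ Q ⊆ R, Q.card = 2 →
      ¬ Cp (caterpillar 5) T (S \ Q) := by
  induction T with
  | leaf =>
    have h1 := h.card
    have h2 : S.card ≤ 1 := by
      have := Finset.card_le_univ S
      rw [card_leaf] at this
      exact this
    rw [h1] at h2
    simp [D8, BinTree.size, caterpillar] at h2
  | node l r ihl ihr =>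
    rcases copy_node h with ⟨e, h1⟩ | ⟨e, h1⟩ | ⟨h1, h2⟩ | ⟨h1, h2⟩
    · obtain ⟨R, hRS, hR6, hR⟩ := ihl _ h1
      refine ⟨un R ∅, ?_, by rw [card_un, hR6]; rfl, ?_⟩
      · intro x hx
        cases x with
        | left a => rw [left_mem_un] at hx; have := hRS hx; simpa [lp] using this
        | right b => rw [right_mem_un] at hx; simp at hx
      · intro Q hQ hQ2 hc
        have hQr : rp Q = ∅ := by
          ext x
          simp only [rp, Finset.mem_filter, Finset.mem_univ, true_and, Finset.notMem_empty, iff_false]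
          intro hx
          have := hQ hx
          rw [right_mem_un] at this
          simp at this
        have hQl : lp Q ⊆ R := by
          intro x hx
          have : Leaf.left x ∈ Q := by simpa [lp] using hx
          exact (left_mem_un _ _ _).1 (hQ this)
        have hQc : (lp Q).card = 2 := by
          have := card_split Q
          rw [hQr, hQ2] at this
          simpa using this.symm
        apply hR (lp Q) hQl hQc
        obtain ⟨t, ht, hi⟩ := hc
        refine ⟨t, ?_, hi⟩
        rw [ind_node] at ht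
        have el : lp (S \ Q) = lp S \ lp Q := by
          ext x; simp [lp]
        have er : rp (S \ Q) = ∅ := by
          ext x
          simp only [rp, Finset.mem_filter, Finset.mem_univ, true_and, Finset.notMem_empty, iff_false]
          intro hx
          have : x ∈ rp S := by simp [rp, (Finset.mem_sdiff.1 hx).1]
          rw [e] at this
          simp at this
        rw [er, ind_empty, el] at ht
        revert ht
        cases ind l (lp S \ lp Q) <;> exact fun h => h
    · obtain ⟨R, hRS, hR6, hR⟩ := ihr _ h1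
      refine ⟨un ∅ R, ?_, by rw [card_un, hR6]; rfl, ?_⟩
      · intro x hx
        cases x with
        | left a => rw [left_mem_un] at hx; simp at hx
        | right b => rw [right_mem_un] at hx; have := hRS hx; simpa [rp] using this
      · intro Q hQ hQ2 hc
        have hQr : lp Q = ∅ := by
          ext x
          simp only [lp, Finset.mem_filter, Finset.mem_univ, true_and, Finset.notMem_empty, iff_false]
          intro hx
          have := hQ hx
          rw [left_mem_un] at this
          simp at this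
        have hQl : rp Q ⊆ R := by
          intro x hx
          have : Leaf.right x ∈ Q := by simpa [rp] using hx
          exact (right_mem_un _ _ _).1 (hQ this)
        have hQc : (rp Q).card = 2 := by
          have := card_split Q
          rw [hQr, hQ2] at this
          simpa using this.symm
        apply hR (rp Q) hQl hQc
        obtain ⟨t, ht, hi⟩ := hc
        refine ⟨t, ?_, hi⟩
        rw [ind_node] at ht
        have el : rp (S \ Q) = rp S \ rp Q := by
          ext x; simp [rp]
        have er : lp (S \ Q) = ∅ := by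
          ext x
          simp only [lp, Finset.mem_filter, Finset.mem_univ, true_and, Finset.notMem_empty, iff_false]
          intro hx
          have : x ∈ lp S := by simp [lp, (Finset.mem_sdiff.1 hx).1]
          rw [e] at this
          simp at this
        rw [er, ind_empty, el] at ht
        exact ht
    · refine ⟨un (lp S) ∅, ?_, ?_, ?_⟩
      · intro x hx
        cases x with
        | left a => rw [left_mem_un] at hx; simpa [lp] using hx
        | right b => rw [right_mem_un] at hx; simp at hx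
      · rw [card_un, h1.card, size_caterpillar]; rfl
      · rintro Q hQ hQ2 ⟨t, ht, hi⟩
        have hQr : rp Q = ∅ := by
          ext x
          simp only [rp, Finset.mem_filter, Finset.mem_univ, true_and, Finset.notMem_empty, iff_false]
          intro hx
          have := hQ hx
          rw [right_mem_un] at this
          simp at this
        have hQS : Q ⊆ S := by
          intro x hx
          have := hQ hx
          cases x with
          | left a => rw [left_mem_un] at this; simpa [lp] using this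
          | right b => rw [right_mem_un] at this; simp at this
        have er : rp (S \ Q) = rp S := by
          ext x
          simp only [rp, Finset.mem_filter, Finset.mem_univ, true_and, Finset.mem_sdiff]
          refine ⟨fun h => h.1, fun h => ⟨h, fun h' => ?_⟩⟩
          have : x ∈ rp Q := by simp [rp, h']
          rw [hQr] at this
          simp at this
        have hcard : (S \ Q).card = 6 := by
          rw [Finset.card_sdiff_of_subset hQS, h.card, hQ2]; rfl
        have hl4 : (lp (S \ Q)).card = 4 := by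
          have := card_split (S \ Q)
          rw [er, h2, hcard] at this
          omega
        rw [ind_node] at ht
        obtain ⟨s1, hs1, hc1⟩ := ind_size l (lp (S \ Q)) (Finset.card_pos.1 (by omega))
        obtain ⟨s2, hs2, hc2⟩ := ind_size r (rp (S \ Q)) (Finset.card_pos.1 (by rw [er]; omega))
        rw [hs1, hs2] at ht
        simp only [join, Option.some.injEq] at ht
        subst ht
        exact not_cat (by omega) (by rw [hc2, er]; omega) 5 hi
    · refine ⟨un ∅ (rp S), ?_, ?_, ?_⟩
      · intro x hx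
        cases x with
        | left a => rw [left_mem_un] at hx; simp at hx
        | right b => rw [right_mem_un] at hx; simpa [rp] using hx
      · rw [card_un, h1.card, size_caterpillar]; rfl
      · rintro Q hQ hQ2 ⟨t, ht, hi⟩
        have hQr : lp Q = ∅ := by
          ext x
          simp only [lp, Finset.mem_filter, Finset.mem_univ, true_and, Finset.notMem_empty, iff_false]
          intro hx
          have := hQ hx
          rw [left_mem_un] at this
          simp at this
        have hQS : Q ⊆ S := by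
          intro x hx
          have := hQ hx
          cases x with
          | left a => rw [left_mem_un] at this; simp at this
          | right b => rw [right_mem_un] at this; simpa [rp] using this
        have er : lp (S \ Q) = lp S := by
          ext x
          simp only [lp, Finset.mem_filter, Finset.mem_univ, true_and, Finset.mem_sdiff]
          refine ⟨fun h => h.1, fun h => ⟨h, fun h' => ?_⟩⟩
          have : x ∈ lp Q := by simp [lp, h']
          rw [hQr] at this
          simp at this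
        have hcard : (S \ Q).card = 6 := by
          rw [Finset.card_sdiff_of_subset hQS, h.card, hQ2]; rfl
        have hl4 : (rp (S \ Q)).card = 4 := by
          have := card_split (S \ Q)
          rw [er, h2, hcard] at this
          omega
        rw [ind_node] at ht
        obtain ⟨s1, hs1, hc1⟩ := ind_size l (lp (S \ Q)) (Finset.card_pos.1 (by rw [er]; omega))
        obtain ⟨s2, hs2, hc2⟩ := ind_size r (rp (S \ Q)) (Finset.card_pos.1 (by omega))
        rw [hs1, hs2] at ht
        simp only [join, Option.some.injEq] at ht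
        subst ht
        exact not_cat (by rw [hc1, er]; omega) (by omega) 5 hi

/-! ### counting -/

/-- pairs of parts -/
lemma un_inj {A A' : Finset (Leaf l)} {B B' : Finset (Leaf r)}
    (h : (un A B : Finset (Leaf (.node l r))) = un A' B') : A = A' ∧ B = B' := by
  constructor
  · rw [← lp_un (r := r) A B, h, lp_un]
  · rw [← rp_un (l := l) A B, h, rp_un]

lemma X_split : X D8 (.node l r) ≤ X D8 l + X D8 r + X (caterpillar 5) l * r.size.choose 2
    + X (caterpillar 5) r * l.size.choose 2 := by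
  set F1 := ((Finset.univ : Finset (Finset (Leaf l))).filter (Cp D8 l)).image
    (fun A => (un A ∅ : Finset (Leaf (.node l r)))) with hF1
  set F2 := ((Finset.univ : Finset (Finset (Leaf r))).filter (Cp D8 r)).image
    (fun B => (un ∅ B : Finset (Leaf (.node l r)))) with hF2
  set F3 := (((Finset.univ : Finset (Finset (Leaf l))).filter (Cp (caterpillar 5) l)) ×ˢ
    ((Finset.univ : Finset (Leaf r)).powersetCard 2)).image
    (fun p => (un p.1 p.2 : Finset (Leaf (.node l r)))) with hF3
  set F4 := (((Finset.univ : Finset (Finset (Leaf r))).filter (Cp (caterpillar 5) r)) ×ˢ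
    ((Finset.univ : Finset (Leaf l)).powersetCard 2)).image
    (fun p => (un p.2 p.1 : Finset (Leaf (.node l r)))) with hF4
  have hsub : (Finset.univ : Finset (Finset (Leaf (.node l r)))).filter (Cp D8 (.node l r)) ⊆
      F1 ∪ F2 ∪ F3 ∪ F4 := by
    intro S hS
    rw [Finset.mem_filter] at hS
    simp only [Finset.mem_union]
    rcases copy_node hS.2 with ⟨e, h1⟩ | ⟨e, h1⟩ | ⟨h1, h2⟩ | ⟨h1, h2⟩
    · left; left; left
      rw [hF1, Finset.mem_image]
      exact ⟨lp S, Finset.mem_filter.2 ⟨Finset.mem_univ _, h1⟩, by rw [← e, un_lp_rp]⟩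
    · left; left; right
      rw [hF2, Finset.mem_image]
      exact ⟨rp S, Finset.mem_filter.2 ⟨Finset.mem_univ _, h1⟩, by rw [← e, un_lp_rp]⟩
    · left; right
      rw [hF3, Finset.mem_image]
      refine ⟨(lp S, rp S), ?_, un_lp_rp S⟩
      rw [Finset.mem_product]
      exact ⟨Finset.mem_filter.2 ⟨Finset.mem_univ _, h1⟩,
        Finset.mem_powersetCard.2 ⟨Finset.subset_univ _, h2⟩⟩
    · right
      rw [hF4, Finset.mem_image]
      refine ⟨(rp S, lp S), ?_, un_lp_rp S⟩
      rw [Finset.mem_product]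
      exact ⟨Finset.mem_filter.2 ⟨Finset.mem_univ _, h1⟩,
        Finset.mem_powersetCard.2 ⟨Finset.subset_univ _, h2⟩⟩
  have c1 : F1.card ≤ X D8 l := Finset.card_image_le
  have c2 : F2.card ≤ X D8 r := Finset.card_image_le
  have c3 : F3.card ≤ X (caterpillar 5) l * r.size.choose 2 := by
    refine Finset.card_image_le.trans ?_
    rw [Finset.card_product, Finset.card_powersetCard, Finset.card_univ, card_leaf]
    rfl
  have c4 : F4.card ≤ X (caterpillar 5) r * l.size.choose 2 := by
    refine Finset.card_image_le.trans ?_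
    rw [Finset.card_product, Finset.card_powersetCard, Finset.card_univ, card_leaf]
    rfl
  calc X D8 (.node l r) ≤ (F1 ∪ F2 ∪ F3 ∪ F4).card := Finset.card_le_card hsub
    _ ≤ F1.card + F2.card + F3.card + F4.card := by
        refine (Finset.card_union_le _ _).trans ?_
        gcongr
        refine (Finset.card_union_le _ _).trans ?_
        gcongr
        exact Finset.card_union_le _ _
    _ ≤ _ := by omega

lemma size_D8 : D8.size = 8 := by rfl

lemma X_P (T : BinTree) :
    X D8 T * 15 ≤ (T.size.choose 6 - X (caterpillar 5) T) * (T.size - 6).choose 2 := by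
  set F := (Finset.univ : Finset (Finset (Leaf T))).filter (Cp D8 T) with hF
  set U := (Finset.univ : Finset (Leaf T)).powersetCard 6 with hU
  set N := U.filter (fun S => ¬ Cp (caterpillar 5) T S) with hN
  have hP : (U.filter (fun S => Cp (caterpillar 5) T S)).card = X (caterpillar 5) T := by
    unfold X
    congr 1
    ext S
    simp only [hU, Finset.mem_filter, Finset.mem_powersetCard, Finset.subset_univ, true_and,
      Finset.mem_univ, and_iff_right_iff_imp]
    intro h
    rw [h.card, size_caterpillar]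
  have hUc : U.card = T.size.choose 6 := by
    rw [hU, Finset.card_powersetCard, Finset.card_univ, card_leaf]
  have hNcard : N.card = T.size.choose 6 - X (caterpillar 5) T := by
    have h1 := Finset.card_filter_add_card_filter_not (s := U)
      (fun S => Cp (caterpillar 5) T S)
    rw [hP, hUc] at h1
    rw [← h1]
    simp [hN]
  rw [← hNcard]
  refine Finset.card_mul_le_card_mul (fun S S' => S' ⊆ S) ?_ ?_
  · intro S hS
    rw [Finset.mem_filter] at hS
    obtain ⟨_, hcopy⟩ := hS
    have hS8 : S.card = 8 := by rw [hcopy.card]; rfl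
    obtain ⟨R, hRS, hR6, hR⟩ := copy_noncat T S hcopy
    have h15 : (R.powersetCard 2).card = 15 := by
      rw [Finset.card_powersetCard, hR6]; rfl
    rw [← h15]
    apply Finset.card_le_card_of_injOn (fun T => S \ T)
    · intro Q hQ
      rw [Finset.mem_coe, Finset.mem_powersetCard] at hQ
      simp only [Finset.coe_bipartiteAbove]
      refine ⟨?_, Finset.sdiff_subset⟩
      rw [hN, Finset.mem_filter, hU, Finset.mem_powersetCard]
      refine ⟨⟨Finset.subset_univ _, ?_⟩, hR Q hQ.1 hQ.2⟩
      rw [Finset.card_sdiff_of_subset (hQ.1.trans hRS), hS8, hQ.2]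
    · intro Q hQ Q' hQ' hEq
      rw [Finset.mem_coe, Finset.mem_powersetCard] at hQ hQ'
      simp only at hEq
      have e1 : S \ (S \ Q) = Q := by
        rw [Finset.sdiff_sdiff_eq_self (hQ.1.trans hRS)]
      have e2 : S \ (S \ Q') = Q' := by
        rw [Finset.sdiff_sdiff_eq_self (hQ'.1.trans hRS)]
      rw [← e1, ← e2, hEq]
  · intro S' hS'
    rw [Finset.mem_filter, hU, Finset.mem_powersetCard] at hS'
    obtain ⟨⟨_, hS6⟩, _⟩ := hS'
    have hc : ((Finset.univ \ S').powersetCard 2).card = (T.size - 6).choose 2 := by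
      rw [Finset.card_powersetCard, Finset.card_sdiff_of_subset (Finset.subset_univ _), hS6,
        Finset.card_univ, card_leaf]
    rw [← hc]
    apply Finset.card_le_card_of_injOn (fun S => S \ S')
    · intro S hS
      simp only [Finset.coe_bipartiteBelow] at hS
      obtain ⟨hS, hsub⟩ := hS
      rw [Finset.mem_filter] at hS
      rw [Finset.mem_coe, Finset.mem_powersetCard]
      refine ⟨Finset.sdiff_subset_sdiff (Finset.subset_univ _) (le_refl _), ?_⟩
      rw [Finset.card_sdiff_of_subset hsub, hS.2.card, hS6]; rfl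
    · intro S hS Q hQ hEq
      simp only [Finset.coe_bipartiteBelow] at hS hQ
      simp only at hEq
      rw [← Finset.sdiff_union_of_subset hS.2, ← Finset.sdiff_union_of_subset hQ.2, hEq]

lemma ind_leaf (S : Finset (Leaf .leaf)) (h : S.Nonempty) : ind .leaf S = some .leaf := by
  unfold ind induced
  rw [if_pos]
  exact h

lemma eq_leaf {S : Finset (Leaf .leaf)} {t : BinTree} (h : ind .leaf S = some t) : t = .leaf := by
  unfold ind induced at h
  split_ifs at h with h'
  injection h with h
  exact h.symm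

/-- every set of leaves of a caterpillar induces a caterpillar -/
lemma ind_caterpillar (k : ℕ) : ∀ (S : Finset (Leaf (caterpillar k))) (t : BinTree),
    ind (caterpillar k) S = some t → Iso t (caterpillar (S.card - 1)) := by
  induction k with
  | zero =>
    intro S t h
    have hc := size_of_ind h
    have h1 : S.card ≤ 1 := by
      have := Finset.card_le_univ S
      rw [card_leaf] at this
      exact this
    have h2 : S.card = 1 := by have := size_pos t; omega
    have h3 : t = .leaf := eq_leaf h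
    rw [h3, h2]
    exact Iso.leaf
  | succ k ih =>
    intro S t h
    have hcs : S.card = (lp (l := caterpillar k) (r := .leaf) S).card +
        (rp (l := caterpillar k) (r := .leaf) S).card := card_split _
    change ind (.node (caterpillar k) .leaf) S = some t at h
    rw [ind_node] at h
    have hr1 : (rp (l := caterpillar k) (r := .leaf) S).card ≤ 1 := by
      have := Finset.card_le_univ (rp (l := caterpillar k) (r := .leaf) S)
      rw [card_leaf] at this
      exact this
    rcases (lp (l := caterpillar k) (r := .leaf) S).eq_empty_or_nonempty with e1 | e1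
    · rw [e1, ind_empty] at h
      change ind .leaf (rp (l := caterpillar k) (r := .leaf) S) = some t at h
      rw [e1, Finset.card_empty] at hcs
      have : S.card - 1 = 0 := by omega
      rw [this, eq_leaf h]
      exact Iso.leaf
    · obtain ⟨s1, hs1, hc1⟩ := ind_size _ _ e1
      have hi1 := ih _ _ hs1
      have hpos : 0 < (lp (l := caterpillar k) (r := .leaf) S).card := Finset.card_pos.2 e1
      rcases (rp (l := caterpillar k) (r := .leaf) S).eq_empty_or_nonempty with e2 | e2
      · rw [e2, ind_empty, hs1] at h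
        injection h with h
        rw [← h]
        rw [e2, Finset.card_empty, add_zero] at hcs
        rw [hcs]
        exact hi1
      · have hr : (rp (l := caterpillar k) (r := .leaf) S).card = 1 := by
          have := Finset.card_pos.2 e2
          omega
        rw [hs1, ind_leaf _ e2] at h
        injection h with h
        rw [← h]
        have : S.card - 1 = ((lp (l := caterpillar k) (r := .leaf) S).card - 1) + 1 := by omega
        rw [this]
        exact Iso.node hi1 Iso.leaf

lemma Cp_caterpillar {k : ℕ} (j : ℕ) {S : Finset (Leaf (caterpillar k))} (hS : S.card = j + 1) :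
    Cp (caterpillar j) (caterpillar k) S := by
  obtain ⟨t, ht, _⟩ := ind_size _ S (Finset.card_pos.1 (by omega))
  refine ⟨t, ht, ?_⟩
  have := ind_caterpillar k S t ht
  rw [hS] at this
  simpa using this

lemma count_ge (a b : ℕ) :
    (a + 1).choose 6 * (b + 1).choose 2 + (a + 1).choose 2 * (b + 1).choose 6 ≤
      X D8 (.node (caterpillar a) (caterpillar b)) := by
  set G1 := ((Finset.univ : Finset (Leaf (caterpillar a))).powersetCard 6 ×ˢ
    (Finset.univ : Finset (Leaf (caterpillar b))).powersetCard 2).image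
      (fun p => (un p.1 p.2 : Finset (Leaf (.node (caterpillar a) (caterpillar b))))) with hG1
  set G2 := ((Finset.univ : Finset (Leaf (caterpillar a))).powersetCard 2 ×ˢ
    (Finset.univ : Finset (Leaf (caterpillar b))).powersetCard 6).image
      (fun p => (un p.1 p.2 : Finset (Leaf (.node (caterpillar a) (caterpillar b))))) with hG2
  have hinj : Function.Injective (fun p : Finset (Leaf (caterpillar a)) ×
      Finset (Leaf (caterpillar b)) =>
      (un p.1 p.2 : Finset (Leaf (.node (caterpillar a) (caterpillar b))))) := by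
    rintro ⟨A, B⟩ ⟨A', B'⟩ h
    obtain ⟨h1, h2⟩ := un_inj h
    simp only at h1 h2
    rw [h1, h2]
  have c1 : G1.card = (a + 1).choose 6 * (b + 1).choose 2 := by
    rw [hG1, Finset.card_image_of_injective _ hinj, Finset.card_product,
      Finset.card_powersetCard, Finset.card_powersetCard, Finset.card_univ, Finset.card_univ,
      card_leaf, card_leaf, size_caterpillar, size_caterpillar]
  have c2 : G2.card = (a + 1).choose 2 * (b + 1).choose 6 := by
    rw [hG2, Finset.card_image_of_injective _ hinj, Finset.card_product,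
      Finset.card_powersetCard, Finset.card_powersetCard, Finset.card_univ, Finset.card_univ,
      card_leaf, card_leaf, size_caterpillar, size_caterpillar]
  have hd : Disjoint G1 G2 := by
    rw [Finset.disjoint_left]
    intro S h1 h2
    rw [hG1, Finset.mem_image] at h1
    rw [hG2, Finset.mem_image] at h2
    obtain ⟨⟨A, B⟩, h1, rfl⟩ := h1
    obtain ⟨⟨A', B'⟩, h2, h⟩ := h2
    obtain ⟨e1, e2⟩ := un_inj h
    rw [Finset.mem_product, Finset.mem_powersetCard, Finset.mem_powersetCard] at h1 h2
    simp only at h1 h2 e1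
    have := h1.1.2
    have := h2.1.2
    rw [e1] at this
    omega
  rw [← c1, ← c2, ← Finset.card_union_of_disjoint hd]
  unfold X
  apply Finset.card_le_card
  intro S hS
  rw [Finset.mem_filter]
  refine ⟨Finset.mem_univ _, ?_⟩
  rcases Finset.mem_union.1 hS with h | h
  · rw [hG1, Finset.mem_image] at h
    obtain ⟨⟨A, B⟩, h, rfl⟩ := h
    rw [Finset.mem_product, Finset.mem_powersetCard, Finset.mem_powersetCard] at h
    obtain ⟨s, hs, hi⟩ := Cp_caterpillar 5 (show A.card = 5 + 1 from h.1.2)
    obtain ⟨t, ht, hj⟩ := Cp_caterpillar 1 (show B.card = 1 + 1 from h.2.2)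
    refine ⟨.node s t, ?_, Iso.node hi hj⟩
    rw [ind_node, lp_un, rp_un, hs, ht]
    rfl
  · rw [hG2, Finset.mem_image] at h
    obtain ⟨⟨A, B⟩, h, rfl⟩ := h
    rw [Finset.mem_product, Finset.mem_powersetCard, Finset.mem_powersetCard] at h
    obtain ⟨s, hs, hi⟩ := Cp_caterpillar 1 (show A.card = 1 + 1 from h.1.2)
    obtain ⟨t, ht, hj⟩ := Cp_caterpillar 5 (show B.card = 5 + 1 from h.2.2)
    refine ⟨.node s t, ?_, Iso.swap hi hj⟩
    rw [ind_node, lp_un, rp_un, hs, ht]
    rfl

end leaves

/-- the critical value of `αβ` -/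
noncomputable def u0 : ℝ := (3 - Real.sqrt 5) / 4

/-- the inducibility -/
noncomputable def L0 : ℝ := (35 * Real.sqrt 5 - 77) / 4

lemma sqrt5_sq : Real.sqrt 5 * Real.sqrt 5 = 5 := Real.mul_self_sqrt (by norm_num)

lemma sqrt5_lb : (2.236 : ℝ) < Real.sqrt 5 := by
  rw [Real.lt_sqrt (by norm_num)]; norm_num

lemma sqrt5_ub : Real.sqrt 5 < (2.2361 : ℝ) := by
  rw [Real.sqrt_lt' (by norm_num)]; norm_num

lemma u0_eq : 4 * u0 ^ 2 - 6 * u0 + 1 = 0 := by
  unfold u0
  have := sqrt5_sq
  nlinarith [this]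

lemma u0_lb : (0.19 : ℝ) < u0 := by unfold u0; linarith [sqrt5_ub]
lemma u0_ub : u0 < (0.191 : ℝ) := by unfold u0; linarith [sqrt5_lb]

lemma L0_eq : L0 = 56 * u0 ^ 3 * (1 - u0) := by
  have h := u0_eq
  have h1 : L0 = 7 - 35 * u0 := by unfold L0 u0; ring
  rw [h1]
  -- u0^2 = (6 u0 - 1)/4
  have h2 : u0 ^ 2 = (6 * u0 - 1) / 4 := by linarith
  have h3 : u0 ^ 3 = (16 * u0 - 3) / 8 := by
    have : u0 ^ 3 = u0 ^ 2 * u0 := by ring
    rw [this, h2]
    nlinarith [h2]
  rw [h3]
  nlinarith [h2]

lemma L0_lb : (0.315 : ℝ) < L0 := by unfold L0; linarith [sqrt5_lb]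
lemma L0_ub : L0 < (0.316 : ℝ) := by unfold L0; linarith [sqrt5_ub]

lemma case_mid (a b : ℝ) (ha : 0 ≤ a) (hb : 0 ≤ b) :
    28 * (a ^ 6 * b ^ 2 + a ^ 2 * b ^ 6) ≤ L0 * (a + b) ^ 8 := by
  have hq : a * b ≤ (a + b) ^ 2 / 4 := by nlinarith [sq_nonneg (a - b)]
  have hq0 : 0 ≤ a * b := mul_nonneg ha hb
  have hid : L0 * (a + b) ^ 8 - 28 * (a ^ 6 * b ^ 2 + a ^ 2 * b ^ 6) =
      56 * (a * b - u0 * (a + b) ^ 2) ^ 2 * (-(a * b) ^ 2 + 2 * (1 - u0) * (a * b) * (a + b) ^ 2
        + u0 * (1 - u0) * (a + b) ^ 4) := by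
    rw [L0_eq]
    linear_combination (-28 * (a * b) ^ 2 * (a + b) ^ 4) * u0_eq
  have h1 : 0 ≤ -(a * b) ^ 2 + 2 * (1 - u0) * (a * b) * (a + b) ^ 2
        + u0 * (1 - u0) * (a + b) ^ 4 := by
    have hs : 0 ≤ (a + b) ^ 2 := sq_nonneg _
    have h2 : 0 ≤ u0 * (1 - u0) * (a + b) ^ 4 := by
      have := u0_lb; have := u0_ub
      apply mul_nonneg
      · nlinarith
      · positivity
    have h3 : (a * b) ^ 2 ≤ 2 * (1 - u0) * (a * b) * (a + b) ^ 2 := by
      have h4 : a * b ≤ 2 * (1 - u0) * (a + b) ^ 2 := by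
        have := u0_ub
        nlinarith
      calc (a * b) ^ 2 = (a * b) * (a * b) := by ring
        _ ≤ (a * b) * (2 * (1 - u0) * (a + b) ^ 2) := mul_le_mul_of_nonneg_left h4 hq0
        _ = _ := by ring
    linarith
  have h5 : 0 ≤ 56 * (a * b - u0 * (a + b) ^ 2) ^ 2 * (-(a * b) ^ 2 + 2 * (1 - u0) * (a * b) * (a + b) ^ 2
        + u0 * (1 - u0) * (a + b) ^ 4) := by positivity
  linarith

lemma case_side (a b : ℝ) (ha : 0 ≤ a) (hb : 0 ≤ b) (hab : 15 * b ^ 2 ≤ a ^ 2) :
    L0 * (a ^ 8 - 15 * a ^ 6 * b ^ 2) + 28 * (a ^ 6 * b ^ 2 + a ^ 2 * b ^ 6)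
      ≤ L0 * (a + b) ^ 8 := by
  rcases eq_or_lt_of_le ha with ha0 | ha0
  · have hb0 : b = 0 := by
      rw [← ha0] at hab
      nlinarith [sq_nonneg b]
    rw [← ha0, hb0]; norm_num
  · obtain ⟨t, rfl⟩ : ∃ t : ℝ, b = t * a := ⟨b / a, by field_simp⟩
    have ht0 : 0 ≤ t := by
      by_contra h
      push Not at h
      nlinarith
    have ht : 15 * t ^ 2 ≤ 1 := by
      have h2 : 0 < a ^ 2 := by positivity
      have : 15 * t ^ 2 * a ^ 2 ≤ 1 * a ^ 2 := by nlinarith
      exact le_of_mul_le_mul_right this h2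
    have hpoly : 28 * (t ^ 2 + t ^ 6) ≤ 0.315 * (8 * t + 43 * t ^ 2 + 56 * t ^ 3 + 70 * t ^ 4) := by
      have e1 : 0 ≤ t ^ 3 * (1 - 15 * t ^ 2) := mul_nonneg (by positivity) (by linarith)
      have e2 : 0 ≤ (t - 1/4) ^ 2 * (t + 1/2) := by positivity
      -- t^3 ≥ 3/16 t - 1/32
      have e3 : 3/16 * t - 1/32 ≤ t ^ 3 := by nlinarith [e2]
      have e4 : 0 ≤ 2.52 - 14.455 * t + 17.64 * t ^ 2 + 22.05 * t ^ 3 - 28 * t ^ 5 := by
        nlinarith [e1, e3, sq_nonneg (t - 0.3034)]
      nlinarith [mul_nonneg ht0 e4]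
    have hexp : (1 + t) ^ 8 - 1 + 15 * t ^ 2 ≥ 8 * t + 43 * t ^ 2 + 56 * t ^ 3 + 70 * t ^ 4 := by
      have : (1 + t) ^ 8 - 1 + 15 * t ^ 2 = 8 * t + 43 * t ^ 2 + 56 * t ^ 3 + 70 * t ^ 4
        + 56 * t ^ 5 + 28 * t ^ 6 + 8 * t ^ 7 + t ^ 8 := by ring
      rw [this]
      have : 0 ≤ 56 * t ^ 5 + 28 * t ^ 6 + 8 * t ^ 7 + t ^ 8 := by positivity
      linarith
    have hpos : 0 ≤ 8 * t + 43 * t ^ 2 + 56 * t ^ 3 + 70 * t ^ 4 := by positivity
    have hmain : 28 * (t ^ 2 + t ^ 6) ≤ L0 * ((1 + t) ^ 8 - 1 + 15 * t ^ 2) := by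
      calc 28 * (t ^ 2 + t ^ 6) ≤ 0.315 * (8 * t + 43 * t ^ 2 + 56 * t ^ 3 + 70 * t ^ 4) := hpoly
        _ ≤ L0 * (8 * t + 43 * t ^ 2 + 56 * t ^ 3 + 70 * t ^ 4) :=
            mul_le_mul_of_nonneg_right L0_lb.le hpos
        _ ≤ L0 * ((1 + t) ^ 8 - 1 + 15 * t ^ 2) :=
            mul_le_mul_of_nonneg_left hexp (by linarith [L0_lb])
    have ha8 : 0 ≤ a ^ 8 := by positivity
    have := mul_le_mul_of_nonneg_right hmain ha8
    nlinarith [this]

lemma key_ineq (a b x₁ x₂ c₁ c₂ : ℝ) (ha : 0 ≤ a) (hb : 0 ≤ b) (hx₁ : 0 ≤ x₁) (hx₁' : x₁ ≤ L0)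
    (hx₂ : 0 ≤ x₂) (hx₂' : x₂ ≤ L0) (hc₁ : c₁ ≤ 1 - 15 / 28 * x₁) (hc₂ : c₂ ≤ 1 - 15 / 28 * x₂) :
    a ^ 8 * x₁ + b ^ 8 * x₂ + 28 * (a ^ 6 * b ^ 2 * c₁ + a ^ 2 * b ^ 6 * c₂)
      ≤ L0 * (a + b) ^ 8 := by
  have e1 : a ^ 6 * b ^ 2 * c₁ ≤ a ^ 6 * b ^ 2 * (1 - 15 / 28 * x₁) :=
    mul_le_mul_of_nonneg_left hc₁ (by positivity)
  have e2 : a ^ 2 * b ^ 6 * c₂ ≤ a ^ 2 * b ^ 6 * (1 - 15 / 28 * x₂) :=
    mul_le_mul_of_nonneg_left hc₂ (by positivity)
  have e3 : a ^ 8 * x₁ + b ^ 8 * x₂ + 28 * (a ^ 6 * b ^ 2 * c₁ + a ^ 2 * b ^ 6 * c₂) ≤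
      x₁ * (a ^ 6 * (a ^ 2 - 15 * b ^ 2)) + x₂ * (b ^ 6 * (b ^ 2 - 15 * a ^ 2))
        + 28 * (a ^ 6 * b ^ 2 + a ^ 2 * b ^ 6) := by nlinarith [e1, e2]
  refine e3.trans ?_
  by_cases h1 : 15 * b ^ 2 ≤ a ^ 2
  · have k1 : x₁ * (a ^ 6 * (a ^ 2 - 15 * b ^ 2)) ≤ L0 * (a ^ 6 * (a ^ 2 - 15 * b ^ 2)) :=
      mul_le_mul_of_nonneg_right hx₁' (mul_nonneg (by positivity) (by linarith))
    have k2 : x₂ * (b ^ 6 * (b ^ 2 - 15 * a ^ 2)) ≤ 0 := by
      apply mul_nonpos_of_nonneg_of_nonpos hx₂
      apply mul_nonpos_of_nonneg_of_nonpos (by positivity)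
      nlinarith [sq_nonneg a, sq_nonneg b]
    have := case_side a b ha hb h1
    nlinarith [this]
  · push Not at h1
    have k1 : x₁ * (a ^ 6 * (a ^ 2 - 15 * b ^ 2)) ≤ 0 := by
      apply mul_nonpos_of_nonneg_of_nonpos hx₁
      apply mul_nonpos_of_nonneg_of_nonpos (by positivity)
      linarith
    by_cases h2 : 15 * a ^ 2 ≤ b ^ 2
    · have k2 : x₂ * (b ^ 6 * (b ^ 2 - 15 * a ^ 2)) ≤ L0 * (b ^ 6 * (b ^ 2 - 15 * a ^ 2)) :=
        mul_le_mul_of_nonneg_right hx₂' (mul_nonneg (by positivity) (by linarith))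
      have := case_side b a hb ha h2
      have e : L0 * (b + a) ^ 8 = L0 * (a + b) ^ 8 := by ring
      nlinarith [this]
    · push Not at h2
      have k2 : x₂ * (b ^ 6 * (b ^ 2 - 15 * a ^ 2)) ≤ 0 := by
        apply mul_nonpos_of_nonneg_of_nonpos hx₂
        apply mul_nonpos_of_nonneg_of_nonpos (by positivity)
        linarith
      have := case_mid a b ha hb
      linarith

lemma L0_irrational : Irrational L0 := by
  have h : Irrational (Real.sqrt 5) := by
    have := Nat.Prime.irrational_sqrt (p := 5) (by norm_num)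
    simpa using this
  intro ⟨q, hq⟩
  apply h
  refine ⟨(4 * q + 77) / 35, ?_⟩
  unfold L0 at hq
  push_cast
  rw [hq]
  ring


lemma choose6_le (a : ℕ) : (a.choose 6 : ℝ) ≤ (a : ℝ) ^ 6 / 720 := by
  have := Nat.choose_le_pow_div (α := ℝ) 6 a
  simpa [Nat.factorial] using this

lemma choose2_le (a : ℕ) : (a.choose 2 : ℝ) ≤ (a : ℝ) ^ 2 / 2 := by
  have := Nat.choose_le_pow_div (α := ℝ) 2 a
  simpa [Nat.factorial] using this

lemma X_le (T : BinTree) : (40320 : ℝ) * (X D8 T : ℝ) ≤ L0 * (T.size : ℝ) ^ 8 := by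
  induction T with
  | leaf =>
    have hX0 : X D8 .leaf = 0 := by
      have := Cp_le D8 .leaf
      have e : BinTree.leaf.size.choose D8.size = 0 := by rw [size_D8]; rfl
      omega
    rw [hX0]
    have := L0_lb
    simp only [Nat.cast_zero, mul_zero]
    positivity
  | node l r i1 i2 =>
    have p1 := size_pos l
    have p2 := size_pos r
    have hX := X_split (l := l) (r := r)
    -- real versions
    have rel : ∀ T : BinTree,
        15 * ((40320 : ℝ) * X D8 T) ≤ 28 * (T.size : ℝ) ^ 8
          - 28 * 720 * (X (caterpillar 5) T : ℝ) * (T.size : ℝ) ^ 2 := by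
      intro T
      have h := X_P T
      have hP : X (caterpillar 5) T ≤ T.size.choose 6 := by
        have := Cp_le (caterpillar 5) T
        rwa [size_caterpillar] at this
      have h' : (X D8 T : ℝ) * 15 ≤ ((T.size.choose 6 : ℝ) - X (caterpillar 5) T)
          * ((T.size - 6).choose 2 : ℝ) := by
        have := (Nat.cast_le (α := ℝ)).2 h
        push_cast [Nat.cast_sub hP] at this
        exact this
      have h6 := choose6_le T.size
      have h2' : (((T.size - 6).choose 2 : ℕ) : ℝ) ≤ (T.size : ℝ) ^ 2 / 2 := by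
        refine le_trans ?_ (choose2_le T.size)
        exact_mod_cast Nat.choose_le_choose 2 (Nat.sub_le _ _)
      have hd : 0 ≤ ((T.size.choose 6 : ℝ) - X (caterpillar 5) T) := by
        have := (Nat.cast_le (α := ℝ)).2 hP
        linarith
      have h3 : (X D8 T : ℝ) * 15 ≤ ((T.size : ℝ) ^ 6 / 720 - X (caterpillar 5) T)
          * ((T.size : ℝ) ^ 2 / 2) := by
        refine h'.trans ?_
        refine mul_le_mul (by linarith) h2' (by positivity) (by linarith)
      nlinarith [h3]
    set a : ℝ := (l.size : ℝ) with ha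
    set b : ℝ := (r.size : ℝ) with hb
    have hapos : 0 < a := by rw [ha]; exact_mod_cast p1
    have hbpos : 0 < b := by rw [hb]; exact_mod_cast p2
    have rel1 := rel l
    have rel2 := rel r
    rw [← ha] at rel1
    rw [← hb] at rel2
    have key := key_ineq a b (40320 * X D8 l / a ^ 8) (40320 * X D8 r / b ^ 8)
      (720 * X (caterpillar 5) l / a ^ 6) (720 * X (caterpillar 5) r / b ^ 6) hapos.le hbpos.le
      (by positivity)
      (by rw [div_le_iff₀ (by positivity)]; exact i1) (by positivity)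
      (by rw [div_le_iff₀ (by positivity)]; exact i2)
      (by
        rw [div_le_iff₀ (by positivity)]
        have : (1 - 15 / 28 * (40320 * (X D8 l : ℝ) / a ^ 8)) * a ^ 6 =
          (28 * a ^ 8 - 15 * (40320 * X D8 l)) / (28 * a ^ 2) := by
          field_simp
        rw [this, le_div_iff₀ (by positivity)]
        nlinarith [rel1])
      (by
        rw [div_le_iff₀ (by positivity)]
        have : (1 - 15 / 28 * (40320 * (X D8 r : ℝ) / b ^ 8)) * b ^ 6 =
          (28 * b ^ 8 - 15 * (40320 * X D8 r)) / (28 * b ^ 2) := by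
          field_simp
        rw [this, le_div_iff₀ (by positivity)]
        nlinarith [rel2])
    have e : a ^ 8 * (40320 * X D8 l / a ^ 8) + b ^ 8 * (40320 * X D8 r / b ^ 8)
        + 28 * (a ^ 6 * b ^ 2 * (720 * X (caterpillar 5) l / a ^ 6)
          + a ^ 2 * b ^ 6 * (720 * X (caterpillar 5) r / b ^ 6))
        = 40320 * X D8 l + 40320 * X D8 r + 20160 * (X (caterpillar 5) l * b ^ 2)
          + 20160 * (X (caterpillar 5) r * a ^ 2) := by
      field_simp
      ring
    rw [e] at key
    have hXr : (X D8 (.node l r) : ℝ) ≤ X D8 l + X D8 r + X (caterpillar 5) l * (r.size.choose 2 : ℝ)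
        + X (caterpillar 5) r * (l.size.choose 2 : ℝ) := by exact_mod_cast hX
    have c1 : (X (caterpillar 5) l : ℝ) * (r.size.choose 2 : ℝ)
        ≤ X (caterpillar 5) l * (b ^ 2 / 2) :=
      mul_le_mul_of_nonneg_left (choose2_le _) (by positivity)
    have c2 : (X (caterpillar 5) r : ℝ) * (l.size.choose 2 : ℝ)
        ≤ X (caterpillar 5) r * (a ^ 2 / 2) :=
      mul_le_mul_of_nonneg_left (choose2_le _) (by positivity)
    have hsz : (((BinTree.node l r).size : ℕ) : ℝ) = a + b := by
      simp only [BinTree.size]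
      push_cast
      rw [ha, hb]
    rw [hsz]
    nlinarith [key, hXr, c1, c2]

/-- the optimal proportion -/
noncomputable def al : ℝ := (1 + Real.sqrt (1 - 4 * u0)) / 2

lemma al_mul : al * (1 - al) = u0 := by
  unfold al
  have h : 0 ≤ 1 - 4 * u0 := by linarith [u0_ub]
  have := Real.mul_self_sqrt h
  nlinarith [this]

lemma al_lb : 0 < al := by
  unfold al
  have := Real.sqrt_nonneg (1 - 4 * u0)
  linarith

lemma al_ub : al < 1 := by
  by_contra h
  push Not at h
  have h1 := al_mul
  have h2 := u0_lb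
  nlinarith [al_lb]

lemma al_val : 28 * (al ^ 6 * (1 - al) ^ 2 + al ^ 2 * (1 - al) ^ 6) = L0 := by
  have hid : L0 * (al + (1 - al)) ^ 8 - 28 * (al ^ 6 * (1 - al) ^ 2 + al ^ 2 * (1 - al) ^ 6) =
      56 * (al * (1 - al) - u0 * (al + (1 - al)) ^ 2) ^ 2 *
        (-(al * (1 - al)) ^ 2 + 2 * (1 - u0) * (al * (1 - al)) * (al + (1 - al)) ^ 2
        + u0 * (1 - u0) * (al + (1 - al)) ^ 4) := by
    rw [L0_eq]
    linear_combination (-28 * (al * (1 - al)) ^ 2 * (al + (1 - al)) ^ 4) * u0_eq
  rw [al_mul] at hid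
  have e : al + (1 - al) = 1 := by ring
  rw [e] at hid
  nlinarith [hid]

/-- the split size -/
noncomputable def mm (n : ℕ) : ℕ := ⌊al * (n : ℝ)⌋₊

lemma mm_tendsto : Tendsto (fun n : ℕ => (mm n : ℝ) / (n : ℝ)) atTop (𝓝 al) :=
  (tendsto_nat_floor_mul_div_atTop al_lb.le).comp tendsto_natCast_atTop_atTop

lemma mm_le (n : ℕ) : mm n ≤ n := by
  unfold mm
  have h1 : al * (n : ℝ) ≤ (n : ℝ) := by
    have : (0 : ℝ) ≤ n := Nat.cast_nonneg n
    nlinarith [al_ub]
  calc ⌊al * (n : ℝ)⌋₊ ≤ ⌊(n : ℝ)⌋₊ := Nat.floor_le_floor h1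
    _ = n := Nat.floor_natCast n

lemma mm_lt {n : ℕ} (hn : 0 < n) : mm n < n := by
  unfold mm
  rw [Nat.floor_lt (mul_nonneg al_lb.le (Nat.cast_nonneg n))]
  have : (0 : ℝ) < n := by exact_mod_cast hn
  nlinarith [al_ub]

lemma sub_tendsto {f : ℕ → ℕ} {x : ℝ} (hf : Tendsto (fun n : ℕ => (f n : ℝ) / (n : ℝ)) atTop (𝓝 x))
    (c : ℕ) : Tendsto (fun n : ℕ => ((f n - c : ℕ) : ℝ) / (n : ℝ)) atTop (𝓝 x) := by
  have hc : Tendsto (fun n : ℕ => (c : ℝ) / (n : ℝ)) atTop (𝓝 0) :=
    tendsto_const_div_atTop_nhds_zero_nat (c : ℝ)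
  have h1 : Tendsto (fun n : ℕ => (f n : ℝ) / (n : ℝ) - (c : ℝ) / (n : ℝ)) atTop (𝓝 x) := by
    have := hf.sub hc
    simpa using this
  refine tendsto_of_tendsto_of_tendsto_of_le_of_le h1 hf ?_ ?_
  · intro n
    simp only
    rw [← sub_div]
    apply div_le_div_of_nonneg_right _ (Nat.cast_nonneg n)
    have : (f n : ℝ) ≤ ((f n - c : ℕ) : ℝ) + c := by
      have : f n ≤ (f n - c) + c := by omega
      exact_mod_cast this
    linarith
  · intro n
    simp only
    apply div_le_div_of_nonneg_right _ (Nat.cast_nonneg n)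
    exact_mod_cast Nat.sub_le _ _

lemma id_tendsto : Tendsto (fun n : ℕ => (n : ℝ) / (n : ℝ)) atTop (𝓝 1) := by
  apply tendsto_const_nhds.congr'
  filter_upwards [eventually_gt_atTop 0] with n hn
  have : (n : ℝ) ≠ 0 := by exact_mod_cast hn.ne'
  rw [div_self this]

lemma comp_tendsto : Tendsto (fun n : ℕ => ((n - mm n : ℕ) : ℝ) / (n : ℝ)) atTop (𝓝 (1 - al)) := by
  have h := id_tendsto.sub mm_tendsto
  refine h.congr (fun n => ?_)
  rw [Nat.cast_sub (mm_le n), sub_div]

lemma upper_pt {n : ℕ} (hn : 8 ≤ n) {T : BinTree} (hT : T.size = n) :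
    density D8 T ≤ L0 * ((n : ℝ) / ((n - 7 : ℕ) : ℝ)) ^ 8 := by
  unfold density
  rw [ncard_eq, size_D8, hT]
  have h1 := X_le T
  rw [hT] at h1
  have hc0 : (0 : ℝ) < ((n.choose 8 : ℕ) : ℝ) := by exact_mod_cast Nat.choose_pos hn
  have h7 : (0 : ℝ) < ((n - 7 : ℕ) : ℝ) := by
    have : 0 < n - 7 := by omega
    exact_mod_cast this
  have h2 : ((n - 7 : ℕ) : ℝ) ^ 8 ≤ 40320 * ((n.choose 8 : ℕ) : ℝ) := by
    have := Nat.pow_le_choose (α := ℝ) 8 n
    have e : n + 1 - 8 = n - 7 := by omega
    rw [e] at this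
    simp only [Nat.factorial] at this
    rw [div_le_iff₀ (by positivity)] at this
    push_cast at this ⊢
    linarith
  rw [div_le_iff₀ hc0, div_pow]
  rw [mul_div_assoc', div_mul_eq_mul_div, le_div_iff₀ (by positivity)]
  have hL : 0 < L0 := by linarith [L0_lb]
  have h3 : (0 : ℝ) ≤ (X D8 T : ℝ) := Nat.cast_nonneg _
  calc (X D8 T : ℝ) * ((n - 7 : ℕ) : ℝ) ^ 8
      ≤ (X D8 T : ℝ) * (40320 * ((n.choose 8 : ℕ) : ℝ)) :=
        mul_le_mul_of_nonneg_left h2 h3
    _ = (40320 * (X D8 T : ℝ)) * ((n.choose 8 : ℕ) : ℝ) := by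
        ring
    _ ≤ (L0 * (n : ℝ) ^ 8) * ((n.choose 8 : ℕ) : ℝ) := mul_le_mul_of_nonneg_right h1 hc0.le

/-- the lower bound sequence -/
noncomputable def lowSeq (n : ℕ) : ℝ :=
  28 * ((((mm n - 5 : ℕ) : ℝ) / n) ^ 6 * ((((n - mm n) - 1 : ℕ) : ℝ) / n) ^ 2
    + (((mm n - 1 : ℕ) : ℝ) / n) ^ 2 * ((((n - mm n) - 5 : ℕ) : ℝ) / n) ^ 6)

lemma choose_lb6 (a : ℕ) : ((a - 5 : ℕ) : ℝ) ^ 6 ≤ 720 * (a.choose 6 : ℝ) := by
  have := Nat.pow_le_choose (α := ℝ) 6 a
  have e : a + 1 - 6 = a - 5 := by omega
  rw [e] at this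
  simp only [Nat.factorial] at this
  rw [div_le_iff₀ (by positivity)] at this
  push_cast at this ⊢
  linarith

lemma choose_lb2 (a : ℕ) : ((a - 1 : ℕ) : ℝ) ^ 2 ≤ 2 * (a.choose 2 : ℝ) := by
  have := Nat.pow_le_choose (α := ℝ) 2 a
  have e : a + 1 - 2 = a - 1 := by omega
  rw [e] at this
  simp only [Nat.factorial] at this
  rw [div_le_iff₀ (by positivity)] at this
  push_cast at this ⊢
  linarith

/-- the extremal tree -/
def TT (n m : ℕ) : BinTree := .node (caterpillar (m - 1)) (caterpillar (n - m - 1))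

lemma size_TT {n m : ℕ} (hm : 1 ≤ m) (hmn : m < n) : (TT n m).size = n := by
  unfold TT
  simp only [BinTree.size, size_caterpillar]
  omega

lemma lower_pt {n : ℕ} (hn : 8 ≤ n) (hm : 1 ≤ mm n) :
    lowSeq n ≤ density D8 (TT n (mm n)) := by
  have hlt : mm n < n := mm_lt (by omega)
  unfold density
  rw [ncard_eq, size_D8, size_TT hm hlt]
  have h0 := count_ge (mm n - 1) (n - mm n - 1)
  have e1 : mm n - 1 + 1 = mm n := by omega
  have e2 : n - mm n - 1 + 1 = n - mm n := by omega
  rw [e1, e2] at h0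
  have h0' : ((mm n).choose 6 : ℝ) * ((n - mm n).choose 2 : ℝ)
      + ((mm n).choose 2 : ℝ) * ((n - mm n).choose 6 : ℝ)
      ≤ (X D8 (TT n (mm n)) : ℝ) := by exact_mod_cast h0
  have hc0 : (0 : ℝ) < ((n.choose 8 : ℕ) : ℝ) := by exact_mod_cast Nat.choose_pos hn
  have hn0 : (0 : ℝ) < n := by
    have : 0 < n := by omega
    exact_mod_cast this
  have h8 : ((n.choose 8 : ℕ) : ℝ) ≤ (n : ℝ) ^ 8 / 40320 := by
    have := Nat.choose_le_pow_div (α := ℝ) 8 n
    simpa [Nat.factorial] using this
  rw [le_div_iff₀ hc0]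
  refine le_trans ?_ h0'
  set a : ℝ := ((mm n - 5 : ℕ) : ℝ)
  set b : ℝ := (((n - mm n) - 1 : ℕ) : ℝ)
  set c : ℝ := ((mm n - 1 : ℕ) : ℝ)
  set d : ℝ := (((n - mm n) - 5 : ℕ) : ℝ)
  have ha : 0 ≤ a := Nat.cast_nonneg _
  have hb : 0 ≤ b := Nat.cast_nonneg _
  have hc : 0 ≤ c := Nat.cast_nonneg _
  have hd : 0 ≤ d := Nat.cast_nonneg _
  have e1 : lowSeq n = 28 * (a ^ 6 * b ^ 2 + c ^ 2 * d ^ 6) / (n : ℝ) ^ 8 := by
    unfold lowSeq
    field_simp
    rfl
  have hnn : 0 ≤ 28 * (a ^ 6 * b ^ 2 + c ^ 2 * d ^ 6) / (n : ℝ) ^ 8 := by positivity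
  have f1 : a ^ 6 * b ^ 2 ≤ (720 * ((mm n).choose 6 : ℝ)) * (2 * ((n - mm n).choose 2 : ℝ)) :=
    mul_le_mul (choose_lb6 _) (choose_lb2 _) (by positivity) (by positivity)
  have f2 : c ^ 2 * d ^ 6 ≤ (2 * ((mm n).choose 2 : ℝ)) * (720 * ((n - mm n).choose 6 : ℝ)) :=
    mul_le_mul (choose_lb2 _) (choose_lb6 _) (by positivity) (by positivity)
  calc lowSeq n * ((n.choose 8 : ℕ) : ℝ)
      ≤ (28 * (a ^ 6 * b ^ 2 + c ^ 2 * d ^ 6) / (n : ℝ) ^ 8) * ((n : ℝ) ^ 8 / 40320) := by
        rw [e1]; exact mul_le_mul_of_nonneg_left h8 hnn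
    _ = (a ^ 6 * b ^ 2 + c ^ 2 * d ^ 6) / 1440 := by
        field_simp
        ring
    _ ≤ _ := by linarith

lemma lowSeq_tendsto : Tendsto lowSeq atTop (𝓝 L0) := by
  have h1 := sub_tendsto mm_tendsto 5
  have h2 := sub_tendsto comp_tendsto 1
  have h3 := sub_tendsto mm_tendsto 1
  have h4 := sub_tendsto comp_tendsto 5
  have := (((h1.pow 6).mul (h2.pow 2)).add ((h3.pow 2).mul (h4.pow 6))).const_mul 28
  rw [al_val] at this
  exact this

lemma upSeq_tendsto : Tendsto (fun n : ℕ => L0 * ((n : ℝ) / ((n - 7 : ℕ) : ℝ)) ^ 8) atTop (𝓝 L0) := by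
  have h1 : Tendsto (fun n : ℕ => (((n - 7 : ℕ) : ℝ) / (n : ℝ))⁻¹) atTop (𝓝 1) := by
    have := (sub_tendsto id_tendsto 7).inv₀ one_ne_zero
    simpa using this
  have h2 : Tendsto (fun n : ℕ => (n : ℝ) / ((n - 7 : ℕ) : ℝ)) atTop (𝓝 1) := by
    refine h1.congr (fun n => ?_)
    rw [inv_div]
  have h3 := (h2.pow 8).const_mul L0
  simpa using h3

lemma mm_pos_eventually : ∀ᶠ n : ℕ in atTop, 1 ≤ mm n := by
  have h : Tendsto (fun n : ℕ => al * (n : ℝ)) atTop atTop :=
    tendsto_natCast_atTop_atTop.const_mul_atTop al_lb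
  filter_upwards [h.eventually_ge_atTop 1] with n hn
  unfold mm
  exact Nat.le_floor (by simpa using hn)

theorem main :
    Tendsto (fun n : ℕ => sSup {x : ℝ | ∃ T : BinTree, T.size = n ∧
        x = density (.node (caterpillar 5) (caterpillar 1)) T})
      atTop (𝓝 ((35 * √5 - 77) / 4)) ∧
    Irrational ((35 * √5 - 77) / 4) := by
  refine ⟨?_, L0_irrational⟩
  change Tendsto (fun n : ℕ => sSup {x : ℝ | ∃ T : BinTree, T.size = n ∧ x = density D8 T})
    atTop (𝓝 L0)
  refine tendsto_of_tendsto_of_tendsto_of_le_of_le' lowSeq_tendsto upSeq_tendsto ?_ ?_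
  · filter_upwards [eventually_ge_atTop 8, mm_pos_eventually] with n hn hm
    refine (lower_pt hn hm).trans ?_
    apply le_csSup
    · refine ⟨L0 * ((n : ℝ) / ((n - 7 : ℕ) : ℝ)) ^ 8, ?_⟩
      rintro x ⟨T, hT, rfl⟩
      exact upper_pt hn hT
    · exact ⟨_, size_TT hm (mm_lt (by omega)), rfl⟩
  · filter_upwards [eventually_ge_atTop 8, mm_pos_eventually] with n hn hm
    apply csSup_le
    · exact ⟨_, _, size_TT hm (mm_lt (n := n) (by omega)), rfl⟩
    · rintro x ⟨T, hT, rfl⟩
      exact upper_pt hn hT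

end Pool.Agent.Helper1.IT
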